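import Mathlib
import Pool.Agent.Q186.Cusp.Gen4
import Pool.Agent.Q186.Hyp.Brg

/-!
# Rational maps near a parabolic polynomial with nonnegative coefficients: the exact distance to
the maps with a sink of bounded period

Let `f` be a real polynomial of degree `D ≥ 2` with nonnegative coefficients and `f' (0) = 0` which
has a positive fixed point `s` of multiplier one, and suppose that `f` has a simple zero. Let
`A = f'' (s) / 2`. Among all rational maps `g` of degree `D` near `f`, in the norm of uniform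
convergence on a disc of radius `R > s`, the nearest ones which have a sink of period at most `N`
meeting a given disc of radius `s₁ < s` are at a distance asymptotic to `π ^ 2 / (A N ^ 2)`. There
are no cycles at all of period at most `N`, whatever their multiplier, which meet this disc for maps
closer than `(1 - o(1)) π ^ 2 / (A N ^ 2)`. If `f (z) = a z ^ D + b`, the nearest hyperbolic maps with
such a sink are at the same distance, asymptotically.
-/

set_option autoImplicit false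

open Filter Topology Set Metric

namespace Pool.Agent.Results.MP_8f2e1c_an.ParabolicLaw

/-- `g` is a rational map of degree `D` of the Riemann sphere: a continuous map of the sphere which
agrees with `P / Q`, in lowest terms, outside the zeros of `Q`. -/
def IsRational (D : ℕ) (g : OnePoint ℂ → OnePoint ℂ) : Prop :=
  ∃ P Q : Polynomial ℂ, IsCoprime P Q ∧ max P.natDegree Q.natDegree = D ∧ Continuous g ∧
    ∀ z : ℂ, Q.eval z ≠ 0 → g (z : OnePoint ℂ) = ((P.eval z / Q.eval z : ℂ) : OnePoint ℂ)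

/-- The map `g` of the sphere is `ρ`-close to `f` on the closed disc of radius `R` (in particular
it has no pole there). -/
def Near (f : Polynomial ℝ) (R ρ : ℝ) (g : OnePoint ℂ → OnePoint ℂ) : Prop :=
  ∀ z : ℂ, ‖z‖ ≤ R → ∃ y : ℂ, g (z : OnePoint ℂ) = (y : OnePoint ℂ) ∧
    ‖y - Polynomial.aeval z f‖ ≤ ρ

/-- `z` is a periodic point of `g` of period `n` (not necessarily minimal), and it is attracting. -/
def IsSink (g : OnePoint ℂ → OnePoint ℂ) (n : ℕ) (z : OnePoint ℂ) : Prop :=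
  0 < n ∧ g^[n] z = z ∧ ∃ U ∈ 𝓝 z, ∀ w ∈ U, Tendsto (fun k : ℕ => g^[n * k] w) atTop (𝓝 z)

/-- `g` is hyperbolic: every critical point (point where `g` is not locally injective) has an orbit
converging to an attracting cycle. -/
def Hyperbolic (g : OnePoint ℂ → OnePoint ℂ) : Prop :=
  ∀ c : OnePoint ℂ, (¬ ∃ U ∈ 𝓝 c, InjOn g U) → ∃ (z : OnePoint ℂ) (n : ℕ), IsSink g n z ∧
    Tendsto (fun k : ℕ => g^[n * k] c) atTop (𝓝 z)

/-- `g` has a cycle of period at most `N` which meets the closed disc of radius `s₁`. -/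
def HasCycle (s₁ : ℝ) (N : ℕ) (g : OnePoint ℂ → OnePoint ℂ) : Prop :=
  ∃ w : ℂ, ‖w‖ ≤ s₁ ∧ ∃ p : ℕ, 1 ≤ p ∧ p ≤ N ∧ g^[p] (w : OnePoint ℂ) = w

/-- `g` has a sink of period at most `N` which meets the closed disc of radius `s₁` at a critical
point. -/
def HasCriticalSink (s₁ : ℝ) (N : ℕ) (g : OnePoint ℂ → OnePoint ℂ) : Prop :=
  ∃ w : ℂ, ‖w‖ ≤ s₁ ∧ (¬ ∃ U ∈ 𝓝 (w : OnePoint ℂ), InjOn g U) ∧
    ∃ p : ℕ, 1 ≤ p ∧ p ≤ N ∧ IsSink g p w

/-- `f + c` acts on the sphere. -/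
theorem sphere {f : Polynomial ℝ} (hdeg : 2 ≤ f.natDegree) (hcrit : f.coeff 1 = 0) {c : ℂ} {p : ℕ}
    (hp : 1 ≤ p) (hper : (fun z : ℂ => Polynomial.aeval z f + c)^[p] 0 = 0) :
    ∃ g : OnePoint ℂ → OnePoint ℂ, IsRational f.natDegree g ∧
      (∀ z : ℂ, g (z : OnePoint ℂ) = ((Polynomial.aeval z f + c : ℂ) : OnePoint ℂ)) ∧
      (¬ ∃ U ∈ 𝓝 ((0 : ℂ) : OnePoint ℂ), InjOn g U) ∧ IsSink g p ((0 : ℂ) : OnePoint ℂ) ∧
      ((∀ j, 0 < j → j < f.natDegree → f.coeff j = 0) → Hyperbolic g) := by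
  obtain ⟨T, hT⟩ : ∃ T : Polynomial ℂ, T = f.map (algebraMap ℝ ℂ) + Polynomial.C c := ⟨_, rfl⟩
  have hev : ∀ z : ℂ, T.eval z = Polynomial.aeval z f + c := by
    intro z
    rw [hT, Polynomial.eval_add, Polynomial.eval_C, Polynomial.eval_map_algebraMap]
  have hTd : T.natDegree = f.natDegree := by
    rw [hT, Polynomial.natDegree_add_C, Polynomial.natDegree_map]
  have hT2 : 2 ≤ T.natDegree := hTd ▸ hdeg
  have hder : ∀ z : ℂ, T.derivative.eval z = Polynomial.aeval z f.derivative := by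
    intro z
    rw [hT, Polynomial.derivative_add, Polynomial.derivative_C, add_zero,
      Polynomial.derivative_map, Polynomial.eval_map_algebraMap]
  have hder0 : T.derivative.eval 0 = 0 := by
    rw [hder, Polynomial.aeval_def, Polynomial.eval₂_at_zero, Polynomial.coeff_derivative, zero_add,
      hcrit]
    simp
  have hmap : Pool.Agent.Q186.Hyp.map T = fun z : ℂ => Polynomial.aeval z f + c := by
    funext z
    exact hev z
  have hsup : deriv ((Pool.Agent.Q186.Hyp.map T)^[p]) 0 = 0 := by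
    obtain ⟨q, rfl⟩ := Nat.exists_eq_add_of_le' hp
    have hd := Pool.Agent.Q186.Hyp.map_diff T
    rw [Function.iterate_succ]
    rw [deriv_comp 0 (hd.iterate q).differentiableAt hd.differentiableAt]
    have h6 : deriv (Pool.Agent.Q186.Hyp.map T) 0 = 0 := by
      show deriv (fun w => T.eval w) 0 = 0
      rw [Polynomial.deriv, hder0]
    rw [h6, mul_zero]
  obtain ⟨g, hgm⟩ := Pool.Agent.TH864.ZO.exists_isM (P := T) (Q := 1) isCoprime_one_right
    (D := max T.natDegree (1 : Polynomial ℂ).natDegree) rfl (by simp; omega) (n := 1) one_pos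
    (s := 1) one_ne_zero
  have hcont := hgm.cont
  have hg' : ∀ z : ℂ, g (z : OnePoint ℂ) = ((Pool.Agent.Q186.Hyp.map T z : ℂ) : OnePoint ℂ) := by
    intro z
    have h1 := hgm.eval z (by simp [Pool.Agent.TH864.ZO.sc_one])
    rw [h1, Pool.Agent.TH864.ZO.sc_one, Pool.Agent.TH864.ZO.sc_one]
    simp [Pool.Agent.Q186.Hyp.map]
  have hper' : (Pool.Agent.Q186.Hyp.map T)^[p] 0 = 0 := by rw [hmap]; exact hper
  refine ⟨g, ⟨T, 1, isCoprime_one_right, by simp [hTd], hcont, ?_⟩, ?_, ?_, ⟨hp, ?_, ?_⟩, ?_⟩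
  · intro z _
    rw [hg' z]
    simp [Pool.Agent.Q186.Hyp.map]
  · intro z
    rw [hg' z, hmap]
  · exact Pool.Agent.Q186.Hyp.not_inj hg' hder0
  · rw [Pool.Agent.Q186.Hyp.iter_coe hg', hper']
  · have h1 := Pool.Agent.Q186.Hyp.near_sink (g := (Pool.Agent.Q186.Hyp.map T)^[p]) (z := 0)
      (((Pool.Agent.Q186.Hyp.map_diff T).iterate p).differentiableAt) hper'
      (by rw [hsup, norm_zero]; exact one_pos)
    refine ⟨_, OnePoint.isOpenEmbedding_coe.image_mem_nhds.2 h1, ?_⟩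
    rintro _ ⟨x, hx, rfl⟩
    simp only [Pool.Agent.Q186.Hyp.iter_coe hg']
    have hx' : Tendsto (fun k : ℕ => (Pool.Agent.Q186.Hyp.map T)^[p * k] x) atTop (𝓝 0) := by
      refine Tendsto.congr (fun k => ?_) hx
      rw [Function.iterate_mul]
    exact ((OnePoint.continuous_coe (X := ℂ)).tendsto 0).comp hx'
  · intro hun
    have hH : Pool.Agent.Q186.Hyp.Hyperbolic T := by
      intro c₁ hc₁
      have hc0 : c₁ = 0 := by
        by_contra hne
        have h1 : f.derivative = Polynomial.C (f.derivative.coeff (f.natDegree - 1)) *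
            Polynomial.X ^ (f.natDegree - 1) := by
          ext j
          rw [Polynomial.coeff_C_mul_X_pow]
          split_ifs with h
          · rw [h]
          · rw [Polynomial.coeff_derivative]
            rcases lt_or_gt_of_ne h with h2 | h2
            · rw [hun (j + 1) (by omega) (by omega), zero_mul]
            · rw [Polynomial.coeff_eq_zero_of_natDegree_lt (by omega), zero_mul]
        have h2 : f.derivative.coeff (f.natDegree - 1) ≠ 0 := by
          rw [Polynomial.coeff_derivative, Nat.sub_add_cancel (by omega)]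
          apply mul_ne_zero
          · rw [Polynomial.coeff_natDegree, Polynomial.leadingCoeff_ne_zero]
            rintro rfl
            simp at hdeg
          · positivity
        rw [hder, h1] at hc₁
        simp only [map_mul, Polynomial.aeval_C, map_pow, Polynomial.aeval_X, mul_eq_zero,
          pow_eq_zero_iff', Complex.coe_algebraMap, Complex.ofReal_eq_zero] at hc₁
        rcases hc₁ with h3 | h3
        · exact h2 h3
        · exact hne h3.1
      right
      rw [hc0]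
      refine ⟨p, hp, 0, hper', by rw [hsup, norm_zero]; exact one_pos, ?_⟩
      have : ∀ k : ℕ, (Pool.Agent.Q186.Hyp.map T)^[p * k] 0 = 0 := by
        intro k
        rw [Function.iterate_mul]
        exact Function.iterate_fixed hper' k
      simp only [this]
      exact tendsto_const_nhds
    intro c₁ hc₁
    induction c₁ using OnePoint.rec with
    | infty =>
      refine ⟨OnePoint.infty, 1, ⟨one_pos, ?_, Pool.Agent.Q186.Hyp.near_infty hT2 hcont hg'⟩, ?_⟩
      · rw [Function.iterate_one]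
        exact Pool.Agent.Q186.Hyp.map_infty hT2 hcont hg'
      · have := Function.iterate_fixed (Pool.Agent.Q186.Hyp.map_infty hT2 hcont hg')
        simp only [one_mul, this]
        exact tendsto_const_nhds
    | coe c₁ =>
      obtain ⟨z, n, hn, h1, h2, h3⟩ :=
        (Pool.Agent.Q186.Hyp.sinks_iff hT2 hcont hg' c₁).2 (hH c₁ (by
          by_contra h0
          exact hc₁ (Pool.Agent.Q186.Hyp.inj_of_ne hg' h0)))
      exact ⟨z, n, ⟨hn, h1, h2⟩, h3⟩

/-- Let `f` be a real polynomial of degree `D ≥ 2`, with nonnegative coefficients and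
`f' (0) = 0`, let `s > 0` be a fixed point of multiplier `1`, let `ζ` be a simple zero of `f` in `ℂ`,
let `0 ≤ s₁ < s < R`, and `A = f'' (s) / 2`. Then `A > 0` and

(1) for every `0 < δ < 1` and all large `N` no map `g` of the sphere (in particular, no rational map
of any degree) with `|g - f| ≤ (1 - δ) π ^ 2 / (A N ^ 2)` on the disc of radius `R` has a cycle of
period at most `N` which meets the disc of radius `s₁`;

(2) for every `δ > 0` and all large `N` there is `c` with `|c| ≤ (1 + δ) π ^ 2 / (A N ^ 2)` such that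
`f + c`, as a rational map of degree `D`, has the sink `0` of period at most `N` and the critical
point `0`; it is hyperbolic if `f (z) = a z ^ D + b`;

(3) `N ^ 2` times the distance from `f` to the rational maps of degree `D` with a critical point in
the disc of radius `s₁` which is a sink of period at most `N` tends to `π ^ 2 / A`;

(4) `N ^ 2` times the distance from `f` to the rational maps of degree `D` with any cycle of period
at most `N` meeting the disc of radius `s₁` has the same limit;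

(5) if `f (z) = a z ^ D + b`, then `N ^ 2` times the distance from `f` to the hyperbolic rational maps
of degree `D` with a critical point in the disc of radius `s₁` which is a sink of period at most
`N` has the same limit. -/
theorem result (f : Polynomial ℝ) (hcoef : ∀ j, 0 ≤ f.coeff j) (hcrit : f.coeff 1 = 0)
    (hdeg : 2 ≤ f.natDegree) (s : ℝ) (hs : 0 < s) (hfix : f.eval s = s)
    (hder : f.derivative.eval s = 1) (ζ : ℂ) (hζ : Polynomial.aeval ζ f = 0)
    (hζ' : Polynomial.aeval ζ f.derivative ≠ 0) (s₁ R : ℝ) (hs₁0 : 0 ≤ s₁) (hs₁ : s₁ < s)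
    (hR : s < R) (A : ℝ) (hA : A = f.derivative.derivative.eval s / 2) :
    0 < A ∧
    (∀ δ : ℝ, 0 < δ → δ < 1 → ∀ᶠ N : ℕ in atTop, ∀ g : OnePoint ℂ → OnePoint ℂ,
      Near f R ((1 - δ) * (Real.pi ^ 2 / (A * N ^ 2))) g → ¬ HasCycle s₁ N g) ∧
    (∀ δ : ℝ, 0 < δ → ∀ᶠ N : ℕ in atTop, ∃ c : ℂ, ‖c‖ ≤ (1 + δ) * (Real.pi ^ 2 / (A * N ^ 2)) ∧
      ∃ p : ℕ, 1 ≤ p ∧ p ≤ N ∧ ∃ g : OnePoint ℂ → OnePoint ℂ, IsRational f.natDegree g ∧
        (∀ z : ℂ, g (z : OnePoint ℂ) = ((Polynomial.aeval z f + c : ℂ) : OnePoint ℂ)) ∧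
        (¬ ∃ U ∈ 𝓝 ((0 : ℂ) : OnePoint ℂ), InjOn g U) ∧ IsSink g p ((0 : ℂ) : OnePoint ℂ) ∧
        ((∀ j, 0 < j → j < f.natDegree → f.coeff j = 0) → Hyperbolic g)) ∧
    Tendsto (fun N : ℕ => (N : ℝ) ^ 2 * sInf {ρ : ℝ | ∃ g : OnePoint ℂ → OnePoint ℂ,
      IsRational f.natDegree g ∧ Near f R ρ g ∧ HasCriticalSink s₁ N g}) atTop
      (𝓝 (Real.pi ^ 2 / A)) ∧
    Tendsto (fun N : ℕ => (N : ℝ) ^ 2 * sInf {ρ : ℝ | ∃ g : OnePoint ℂ → OnePoint ℂ,
      IsRational f.natDegree g ∧ Near f R ρ g ∧ HasCycle s₁ N g}) atTop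
      (𝓝 (Real.pi ^ 2 / A)) ∧
    ((∀ j, 0 < j → j < f.natDegree → f.coeff j = 0) →
      Tendsto (fun N : ℕ => (N : ℝ) ^ 2 * sInf {ρ : ℝ | ∃ g : OnePoint ℂ → OnePoint ℂ,
        IsRational f.natDegree g ∧ Hyperbolic g ∧ Near f R ρ g ∧ HasCriticalSink s₁ N g}) atTop
        (𝓝 (Real.pi ^ 2 / A))) := by
  have hpi := Real.pi_pos
  have hpar := Pool.Agent.Q186.Cusp.Gen.par_poly hcoef hdeg hs hfix hder
  have hmaj := Pool.Agent.Q186.Cusp.Gen.maj_poly (f := f) hcoef
  have hGA : Pool.Agent.Q186.Cusp.Gen.GG f s s = A := by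
    rw [Pool.Agent.Q186.Cusp.Gen.GG_self, hA]
  have hA0 : 0 < A := by
    rw [← hGA]
    exact hpar.κ_pos.trans_le (hpar.ge s hs.le)
  have hR0 : 0 ≤ R := by linarith
  have hdiff : Differentiable ℂ fun z : ℂ => Polynomial.aeval z f := Polynomial.differentiable_aeval f
  have hderiv : ∀ z : ℂ, deriv (fun z : ℂ => Polynomial.aeval z f) z =
      Polynomial.aeval z f.derivative := fun z => Polynomial.deriv_aeval f
  have hlow : ∀ δ : ℝ, 0 < δ → ∃ r₀ : ℝ, 0 < r₀ ∧ ∀ r : ℝ, 0 < r → r ≤ r₀ → ∀ N : ℕ,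
      ∀ g : OnePoint ℂ → OnePoint ℂ, Near f R r g → HasCycle s₁ N g →
        Real.pi - δ < N * √(A * r) := by
    intro δ hδ
    obtain ⟨r₀, hr₀, H⟩ := Pool.Agent.Q186.Cusp.Gen.no_cycle_sphere hmaj hpar hδ hs₁ hR
    refine ⟨r₀, hr₀, ?_⟩
    rintro r hr hrr N g hg ⟨w, hw, p, hp1, hp2, hp3⟩
    have h1 := H r hr hrr g hg w hw p hp1 hp3
    rw [hGA] at h1
    refine h1.trans_le ?_
    apply mul_le_mul_of_nonneg_right _ (Real.sqrt_nonneg _)
    exact_mod_cast hp2
  have hex : ∀ δ : ℝ, 0 < δ → ∃ r₀ : ℝ, 0 < r₀ ∧ ∀ r : ℝ, 0 < r → r ≤ r₀ → ∀ N : ℕ,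
      Real.pi + δ ≤ N * √(A * r) → ∃ c : ℂ, ‖c‖ ≤ r ∧ ∃ p : ℕ, 1 ≤ p ∧ p ≤ N + 1 ∧
        (fun z : ℂ => Polynomial.aeval z f + c)^[p] 0 = 0 := by
    intro δ hδ
    obtain ⟨r₀, hr₀, H⟩ := Pool.Agent.Q186.Cusp.Gen.exists_cycle hmaj hpar hdiff hζ
      (by rw [hderiv]; exact hζ') hδ
    rw [hGA] at H
    exact ⟨r₀, hr₀, H⟩
  have hcc : ∀ (N : ℕ) (g : OnePoint ℂ → OnePoint ℂ), HasCriticalSink s₁ N g →
      HasCycle s₁ N g := by
    rintro N g ⟨w, h1, -, p, h2, h3, -, h4, -⟩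
    exact ⟨w, h1, p, h2, h3, h4⟩
  have hmem : ∀ (N : ℕ) (r : ℝ) (c : ℂ), ‖c‖ ≤ r → ∀ p : ℕ, 1 ≤ p → p ≤ N →
      (fun z : ℂ => Polynomial.aeval z f + c)^[p] 0 = 0 → ∃ g : OnePoint ℂ → OnePoint ℂ,
      IsRational f.natDegree g ∧ Near f R r g ∧ HasCriticalSink s₁ N g ∧
      ((∀ j, 0 < j → j < f.natDegree → f.coeff j = 0) → Hyperbolic g) := by
    intro N r c hc p hp1 hp2 hp3
    obtain ⟨g, h1, h2, h3, h4, h5⟩ := sphere hdeg hcrit hp1 hp3
    refine ⟨g, h1, ?_, ⟨0, by simpa using hs₁0, h3, p, hp1, hp2, h4⟩, h5⟩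
    intro z _
    refine ⟨_, h2 z, ?_⟩
    rw [add_sub_cancel_left]
    exact hc
  refine ⟨hA0, ?_, ?_, ?_, ?_, ?_⟩
  · intro δ hδ hδ1
    have hsq : 0 < √(1 - δ) := by
      apply Real.sqrt_pos.2
      linarith
    have hsq1 : √(1 - δ) < 1 := by
      rw [Real.sqrt_lt' one_pos]
      linarith
    obtain ⟨r₀, hr₀, H⟩ := hlow (Real.pi * (1 - √(1 - δ))) (mul_pos hpi (by linarith))
    have h1 : Tendsto (fun N : ℕ => (1 - δ) * (Real.pi ^ 2 / A) * (1 / (N : ℝ)) ^ 2) atTop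
        (𝓝 0) := by
      have := (tendsto_one_div_atTop_nhds_zero_nat (𝕜 := ℝ)).pow 2
      have := this.const_mul ((1 - δ) * (Real.pi ^ 2 / A))
      simpa using this
    filter_upwards [h1.eventually (gt_mem_nhds hr₀), eventually_ge_atTop 1] with N hN1 hN2
    intro g hg hcyc
    have hN0 : (0 : ℝ) < N := by exact_mod_cast hN2
    have hδ' : 0 < 1 - δ := by linarith
    have e1 : (1 - δ) * (Real.pi ^ 2 / (A * N ^ 2)) =
        (1 - δ) * (Real.pi ^ 2 / A) * (1 / (N : ℝ)) ^ 2 := by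
      field_simp
    have h2 := H ((1 - δ) * (Real.pi ^ 2 / (A * N ^ 2))) (by positivity) (by
      rw [e1]
      exact hN1.le) N g hg hcyc
    have e2 : A * ((1 - δ) * (Real.pi ^ 2 / (A * N ^ 2))) = (1 - δ) * (Real.pi / N) ^ 2 := by
      field_simp
    rw [e2, Real.sqrt_mul hδ'.le, Real.sqrt_sq (by positivity)] at h2
    have e3 : (N : ℝ) * (√(1 - δ) * (Real.pi / N)) = √(1 - δ) * Real.pi := by
      field_simp
    rw [e3] at h2
    linarith
  · intro δ hδ
    have hsq1 : 1 < √(1 + δ) := by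
      rw [Real.lt_sqrt zero_le_one]
      linarith
    obtain ⟨b, hb⟩ : ∃ b, b = √(1 + δ) := ⟨_, rfl⟩
    rw [← hb] at hsq1
    obtain ⟨r₀, hr₀, H⟩ := hex (Real.pi * ((b - 1) / 2)) (mul_pos hpi (by linarith))
    have h1 : Tendsto (fun N : ℕ => (1 + δ) * (Real.pi ^ 2 / A) * (1 / (N : ℝ)) ^ 2) atTop
        (𝓝 0) := by
      have := (tendsto_one_div_atTop_nhds_zero_nat (𝕜 := ℝ)).pow 2
      have := this.const_mul ((1 + δ) * (Real.pi ^ 2 / A))
      simpa using this
    obtain ⟨M, hM⟩ := exists_nat_gt (2 * b / (b - 1))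
    filter_upwards [h1.eventually (gt_mem_nhds hr₀), eventually_ge_atTop (max 1 M)]
      with N hN1 hN2
    have hN3 : 1 ≤ N := (le_max_left _ _).trans hN2
    have hN4 : (M : ℝ) ≤ N := by exact_mod_cast (le_max_right _ _).trans hN2
    have hN0 : (0 : ℝ) < N := by exact_mod_cast hN3
    obtain ⟨k, rfl⟩ := Nat.exists_eq_add_of_le' hN3
    have e1 : (1 + δ) * (Real.pi ^ 2 / (A * ((k + 1 : ℕ) : ℝ) ^ 2)) =
        (1 + δ) * (Real.pi ^ 2 / A) * (1 / ((k + 1 : ℕ) : ℝ)) ^ 2 := by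
      field_simp
    have e2 : A * ((1 + δ) * (Real.pi ^ 2 / (A * ((k + 1 : ℕ) : ℝ) ^ 2))) =
        (1 + δ) * (Real.pi / ((k + 1 : ℕ) : ℝ)) ^ 2 := by
      field_simp
    obtain ⟨c, hc, p, hp1, hp2, hp3⟩ := H ((1 + δ) * (Real.pi ^ 2 / (A * ((k + 1 : ℕ) : ℝ) ^ 2)))
      (by positivity) (by rw [e1]; exact hN1.le) k (by
        rw [e2, Real.sqrt_mul (by linarith), Real.sqrt_sq (by positivity), ← hb]
        have h2 : 2 * b / (b - 1) ≤ ((k + 1 : ℕ) : ℝ) := hM.le.trans hN4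
        rw [div_le_iff₀ (by linarith)] at h2
        have e3 : (k : ℝ) * (b * (Real.pi / ((k + 1 : ℕ) : ℝ))) =
            Real.pi * (b * k / ((k + 1 : ℕ) : ℝ)) := by ring
        have e4 : Real.pi + Real.pi * ((b - 1) / 2) = Real.pi * ((b + 1) / 2) := by ring
        rw [e3, e4]
        apply mul_le_mul_of_nonneg_left _ hpi.le
        rw [le_div_iff₀ hN0]
        push_cast at h2 ⊢
        nlinarith)
    exact ⟨c, hc, p, hp1, hp2, sphere hdeg hcrit hp1 hp3⟩
  · apply Pool.Agent.Q186.Cusp.Gen.limit_abs hA0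
    · rintro N ρ ⟨g, h1, h2, h3⟩ r hr
      exact ⟨g, h1, fun z hz => (h2 z hz).imp fun y hy => ⟨hy.1, hy.2.trans hr⟩, h3⟩
    · rintro N ρ ⟨g, h1, h2, h3⟩
      obtain ⟨y, -, hy⟩ := h2 0 (by simpa using hR0)
      exact (norm_nonneg _).trans hy
    · intro δ hδ
      obtain ⟨r₀, hr₀, H⟩ := hlow δ hδ
      refine ⟨r₀, hr₀, ?_⟩
      rintro r hr hrr N ⟨g, h1, h2, h3⟩
      exact H r hr hrr N g h2 (hcc N g h3)
    · intro δ hδ
      obtain ⟨r₀, hr₀, H⟩ := hex δ hδ
      refine ⟨r₀, hr₀, ?_⟩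
      intro r hr hrr N hN
      obtain ⟨c, hc, p, hp1, hp2, hp3⟩ := H r hr hrr N hN
      obtain ⟨g, h1, h2, h3, -⟩ := hmem (N + 1) r c hc p hp1 hp2 hp3
      exact ⟨g, h1, h2, h3⟩
  · apply Pool.Agent.Q186.Cusp.Gen.limit_abs hA0
    · rintro N ρ ⟨g, h1, h2, h3⟩ r hr
      exact ⟨g, h1, fun z hz => (h2 z hz).imp fun y hy => ⟨hy.1, hy.2.trans hr⟩, h3⟩
    · rintro N ρ ⟨g, h1, h2, h3⟩
      obtain ⟨y, -, hy⟩ := h2 0 (by simpa using hR0)
      exact (norm_nonneg _).trans hy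
    · intro δ hδ
      obtain ⟨r₀, hr₀, H⟩ := hlow δ hδ
      refine ⟨r₀, hr₀, ?_⟩
      rintro r hr hrr N ⟨g, h1, h2, h3⟩
      exact H r hr hrr N g h2 h3
    · intro δ hδ
      obtain ⟨r₀, hr₀, H⟩ := hex δ hδ
      refine ⟨r₀, hr₀, ?_⟩
      intro r hr hrr N hN
      obtain ⟨c, hc, p, hp1, hp2, hp3⟩ := H r hr hrr N hN
      obtain ⟨g, h1, h2, h3, -⟩ := hmem (N + 1) r c hc p hp1 hp2 hp3
      exact ⟨g, h1, h2, hcc _ _ h3⟩
  · intro hun
    apply Pool.Agent.Q186.Cusp.Gen.limit_abs hA0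
    · rintro N ρ ⟨g, h1, h1', h2, h3⟩ r hr
      exact ⟨g, h1, h1', fun z hz => (h2 z hz).imp fun y hy => ⟨hy.1, hy.2.trans hr⟩, h3⟩
    · rintro N ρ ⟨g, h1, h1', h2, h3⟩
      obtain ⟨y, -, hy⟩ := h2 0 (by simpa using hR0)
      exact (norm_nonneg _).trans hy
    · intro δ hδ
      obtain ⟨r₀, hr₀, H⟩ := hlow δ hδ
      refine ⟨r₀, hr₀, ?_⟩
      rintro r hr hrr N ⟨g, h1, h1', h2, h3⟩
      exact H r hr hrr N g h2 (hcc N g h3)
    · intro δ hδ
      obtain ⟨r₀, hr₀, H⟩ := hex δ hδ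
      refine ⟨r₀, hr₀, ?_⟩
      intro r hr hrr N hN
      obtain ⟨c, hc, p, hp1, hp2, hp3⟩ := H r hr hrr N hN
      obtain ⟨g, h1, h2, h3, h4⟩ := hmem (N + 1) r c hc p hp1 hp2 hp3
      exact ⟨g, h1, h4 hun, h2, h3⟩

end Pool.Agent.Results.MP_8f2e1c_an.ParabolicLaw
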